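import Pool.Agent.H250.MR.NCstm
import Pool.Agent.H250.MR.SmallTest

/-!
# One near point: the second order test (for helper250)
-/

set_option autoImplicit false

open MeasureTheory Polynomial

namespace Pool.Agent.H729.MR

open Pool.Agent.H250.MR

/-- the last step: `ζ_j = 1/(a - z_j)` -/
lemma finV {N : ℕ} {a : ℝ} (ζ : Fin N → ℂ) (hN : (1 : ℝ) ≤ N) (ha : 1 - 1 / 10 ^ 6 ≤ a)
    (ha1 : a < 1) (hεN : (1 - a) * N ≤ 21 / 200)
    (hz : ∀ j, 1 - (1 - a ^ 2) * ‖ζ j‖ ^ 2 ≤ 2 * (a * (ζ j).re))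
    (hb : ∀ j, ‖ζ j‖ ≤ N / (59 / 10)) (hS1 : (∑ j, ζ j).re ≤ N / 2)
    (hS2 : 23 / 100 * (N : ℝ) ≤ (∑ j, ζ j ^ 2).re) : False := by
  have ha0 : 0 < a := by linarith
  set X : ℝ := ∑ j, ‖ζ j‖ ^ 2 with hX
  set e : Fin N → ℝ := fun j => a * (ζ j).re - 1 / 2 + (1 - a) * ‖ζ j‖ ^ 2 with he
  have he0 : ∀ j, 0 ≤ e j := by
    intro j
    have h1 := hz j
    have h2 : (1 - a ^ 2) * ‖ζ j‖ ^ 2 ≤ 2 * (1 - a) * ‖ζ j‖ ^ 2 := by
      refine mul_le_mul_of_nonneg_right ?_ (sq_nonneg _)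
      nlinarith [sq_nonneg (1 - a)]
    simp only [he]
    linarith
  have hsum : ∑ j, e j = a * (∑ j, ζ j).re - N / 2 + (1 - a) * X := by
    simp only [he]
    rw [Finset.sum_add_distrib, Finset.sum_sub_distrib, ← Finset.mul_sum, ← Finset.mul_sum,
      Complex.re_sum, Finset.sum_const, Finset.card_univ, Fintype.card_fin, nsmul_eq_mul]
    ring
  have hsum0 : 0 ≤ ∑ j, e j := Finset.sum_nonneg fun j _ => he0 j
  have hsum1 : ∑ j, e j ≤ (1 - a) * (X - N / 2) := by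
    rw [hsum]
    nlinarith
  have hXN : (N : ℝ) / 2 ≤ X := by
    by_contra hc
    rw [not_le] at hc
    have : (1 - a) * (X - N / 2) < 0 := mul_neg_of_pos_of_neg (by linarith) (by linarith)
    linarith
  have key : ∀ j, (a * (ζ j).re) ^ 2 ≤ 1 / 4 + (1 + N / (59 / 10)) * e j +
      18 / 1000 * ‖ζ j‖ ^ 2 := by
    intro j
    have hp : 0 ≤ (1 - a) * ‖ζ j‖ ^ 2 := mul_nonneg (by linarith) (sq_nonneg _)
    have hb0 := hb j
    have hre : |(ζ j).re| ≤ ‖ζ j‖ := Complex.abs_re_le_norm _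
    have hre1 := (abs_le.1 hre).1
    have hre2 := (abs_le.1 hre).2
    have hn := norm_nonneg (ζ j)
    have hej := he0 j
    have hy : a * (ζ j).re = 1 / 2 + e j - (1 - a) * ‖ζ j‖ ^ 2 := by
      simp only [he]
      ring
    have hN59 : (0 : ℝ) ≤ N / (59 / 10) := by positivity
    rcases le_total 0 (a * (ζ j).re) with h0 | h0
    · have h1 : a * (ζ j).re ≤ N / (59 / 10) := by
        have h2 : a * (ζ j).re ≤ a * ‖ζ j‖ := mul_le_mul_of_nonneg_left hre2 ha0.le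
        have h3 : a * ‖ζ j‖ ≤ 1 * ‖ζ j‖ := mul_le_mul_of_nonneg_right ha1.le hn
        linarith
      have h2 : (a * (ζ j).re) ^ 2 ≤ a * (ζ j).re * (1 / 2 + e j) := by
        rw [pow_two]
        refine mul_le_mul_of_nonneg_left ?_ h0
        linarith
      have h3 : a * (ζ j).re * e j ≤ N / (59 / 10) * e j := mul_le_mul_of_nonneg_right h1 hej
      have h4 : 0 ≤ 18 / 1000 * ‖ζ j‖ ^ 2 := by positivity
      nlinarith
    · have h1 : -(a * (ζ j).re) ≤ (1 - a) * ‖ζ j‖ ^ 2 := by linarith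
      have h2 : -(a * (ζ j).re) ≤ N / (59 / 10) := by
        have h2 : a * (-(ζ j).re) ≤ a * ‖ζ j‖ := mul_le_mul_of_nonneg_left (by linarith) ha0.le
        have h3 : a * ‖ζ j‖ ≤ 1 * ‖ζ j‖ := mul_le_mul_of_nonneg_right ha1.le hn
        linarith
      have h3 : (a * (ζ j).re) ^ 2 ≤ N / (59 / 10) * ((1 - a) * ‖ζ j‖ ^ 2) := by
        have : (a * (ζ j).re) ^ 2 = (-(a * (ζ j).re)) * (-(a * (ζ j).re)) := by ring
        rw [this]
        exact mul_le_mul h2 h1 (by linarith) hN59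
      have h4 : N / (59 / 10) * ((1 - a) * ‖ζ j‖ ^ 2) ≤ 18 / 1000 * ‖ζ j‖ ^ 2 := by
        have : N / (59 / 10) * ((1 - a) * ‖ζ j‖ ^ 2) = ((1 - a) * N) * (10 / 59) * ‖ζ j‖ ^ 2 := by
          ring
        rw [this]
        refine mul_le_mul_of_nonneg_right ?_ (sq_nonneg _)
        linarith
      have h5 : 0 ≤ (1 + N / (59 / 10)) * e j := mul_nonneg (by linarith) hej
      linarith
  have hsumk := Finset.sum_le_sum fun j (_ : j ∈ Finset.univ) => key j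
  rw [Finset.sum_add_distrib, Finset.sum_add_distrib, ← Finset.mul_sum, ← Finset.mul_sum,
    Finset.sum_const, Finset.card_univ, Fintype.card_fin, nsmul_eq_mul, ← hX] at hsumk
  set R : ℝ := ∑ j, (ζ j).re ^ 2 with hR
  have e1 : ∑ j, (a * (ζ j).re) ^ 2 = a ^ 2 * R := by
    rw [hR, Finset.mul_sum]
    exact Finset.sum_congr rfl fun j _ => by ring
  rw [e1] at hsumk
  have e2 : (∑ j, ζ j ^ 2).re = 2 * R - X := by
    rw [Complex.re_sum, hR, hX, Finset.mul_sum, ← Finset.sum_sub_distrib]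
    refine Finset.sum_congr rfl fun j _ => ?_
    rw [Complex.sq_norm, Complex.normSq_apply, pow_two, Complex.mul_re]
    ring
  rw [e2] at hS2
  have h1 : (1 + N / (59 / 10)) * ∑ j, e j ≤ 18 / 1000 * (X - N / 2) := by
    have h2 : (1 + (N : ℝ) / (59 / 10)) * ∑ j, e j ≤
        (1 + N / (59 / 10)) * ((1 - a) * (X - N / 2)) :=
      mul_le_mul_of_nonneg_left hsum1 (by positivity)
    have h3 : (1 + (N : ℝ) / (59 / 10)) * ((1 - a) * (X - N / 2)) ≤ 18 / 1000 * (X - N / 2) := by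
      rw [← mul_assoc]
      refine mul_le_mul_of_nonneg_right ?_ (by linarith)
      have : (1 + (N : ℝ) / (59 / 10)) * (1 - a) = (1 - a) + ((1 - a) * N) * (10 / 59) := by ring
      rw [this]
      linarith
    linarith
  have hX0 : 0 ≤ X := Finset.sum_nonneg fun j _ => sq_nonneg _
  have ha2 : 999 / 1000 ≤ a ^ 2 := by nlinarith
  have h5 : a ^ 2 * R ≤ N / 4 + 18 / 1000 * (X - N / 2) + 18 / 1000 * X := by linarith
  have h6 : a ^ 2 * (23 / 100 * N) ≤ a ^ 2 * (2 * R - X) :=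
    mul_le_mul_of_nonneg_left hS2 (sq_nonneg _)
  have h7 : 999 / 1000 * (23 / 100 * (N : ℝ)) ≤ a ^ 2 * (23 / 100 * N) :=
    mul_le_mul_of_nonneg_right ha2 (by positivity)
  have h8 : 999 / 1000 * X ≤ a ^ 2 * X := mul_le_mul_of_nonneg_right ha2 hX0
  have h9 : a ^ 2 * (2 * R - X) = 2 * (a ^ 2 * R) - a ^ 2 * X := by ring
  linarith


section

variable {N : ℕ} {a l : ℝ} {x : Fin N → ℂ} {i0 : Fin N}

lemma split_sum (hF : (FF l x)ᶜ = {i0}) {M : Type} [AddCommMonoid M] (f : Fin N → M) :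
    ∑ k, f k = ∑ k ∈ FF l x, f k + f i0 := by
  rw [← Finset.sum_add_sum_compl (FF l x) f, hF, Finset.sum_singleton]

lemma cardFF (h : NC N a l x) (hF : (FF l x)ᶜ = {i0}) : ((FF l x).card : ℝ) = N - 1 := by
  have h1 := h.cardF
  rw [hF, Finset.card_singleton, Nat.cast_one] at h1
  linarith

/-- `∑_F ‖u‖² ≤ N/4 + ...` -/
lemma sqU (h : NC N a l x) (hF : (FF l x)ᶜ = {i0})
    (h2 : ∑ k ∈ FF l x, ‖-((a : ℂ) * x k) - 1 / 2‖ ≤ 1 / 10 ^ 7 * N)
    (h3 : ∀ k ∈ FF l x, ‖-((a : ℂ) * x k) - 1 / 2‖ ≤ 2) :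
    ∑ k ∈ FF l x, ‖-((a : ℂ) * x k)‖ ^ 2 ≤ (N - 1) / 4 + 3 / 10 ^ 7 * N := by
  have h4 : ∀ k ∈ FF l x, ‖-((a : ℂ) * x k)‖ ^ 2 ≤
      1 / 4 + 3 * ‖-((a : ℂ) * x k) - 1 / 2‖ := by
    intro k hk
    have h5 := h3 k hk
    have h6 : ‖-((a : ℂ) * x k)‖ ≤ ‖-((a : ℂ) * x k) - 1 / 2‖ + 1 / 2 := by
      have := norm_sub_norm_le (-((a : ℂ) * x k)) (1 / 2)
      have h7 : ‖(1 / 2 : ℂ)‖ = 1 / 2 := by norm_num
      linarith
    have h7 := norm_nonneg (-((a : ℂ) * x k) - 1 / 2)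
    have h8 := norm_nonneg (-((a : ℂ) * x k))
    have h9 : ‖-((a : ℂ) * x k)‖ ^ 2 ≤ (‖-((a : ℂ) * x k) - 1 / 2‖ + 1 / 2) ^ 2 :=
      pow_le_pow_left₀ h8 h6 2
    nlinarith
  have h5 := Finset.sum_le_sum h4
  rw [Finset.sum_add_distrib, ← Finset.mul_sum, Finset.sum_const, nsmul_eq_mul,
    cardFF h hF] at h5
  linarith

/-- (i) -/
lemma epsN (h : NC N a l x) (hF : (FF l x)ᶜ = {i0})
    (h1 : ‖-((a : ℂ) * x i0) - ∑ k ∈ FF l x, -((a : ℂ) * x k) - 1‖ ≤ 1 / 20)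
    (h2 : ∑ k ∈ FF l x, ‖-((a : ℂ) * x k) - 1 / 2‖ ≤ 1 / 10 ^ 7 * N)
    (h3 : ∀ k ∈ FF l x, ‖-((a : ℂ) * x k) - 1 / 2‖ ≤ 2) :
    (1 - a) * N ≤ 21 / 200 := by
  have ha0 := h.a0
  have ha1 := h.ha1
  have hN := h.Nbig
  set U : ℂ := ∑ k ∈ FF l x, -((a : ℂ) * x k) with hU
  set u0 : ℂ := -((a : ℂ) * x i0) with hu0
  have e1 : U.re + 19 / 20 ≤ u0.re := by
    have := (abs_le.1 ((Complex.abs_re_le_norm (u0 - U - 1)).trans h1)).1
    simp only [Complex.sub_re, Complex.one_re] at this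
    linarith
  have e2 := sqU h hF h2 h3
  have e3 : a ^ 2 * ∑ k ∈ FF l x, ‖x k‖ ^ 2 = ∑ k ∈ FF l x, ‖-((a : ℂ) * x k)‖ ^ 2 := by
    rw [Finset.mul_sum]
    refine Finset.sum_congr rfl fun k _ => ?_
    rw [u_norm (by linarith), mul_pow]
  have e4 : ∑ k ∈ FF l x, ‖x k‖ ^ 2 ≤ 26 / 100 * N := by
    have h5 : (98 / 100 : ℝ) ≤ a ^ 2 := by nlinarith
    have h6 : 0 ≤ ∑ k ∈ FF l x, ‖x k‖ ^ 2 := Finset.sum_nonneg fun _ _ => sq_nonneg _
    have h7 : 98 / 100 * ∑ k ∈ FF l x, ‖x k‖ ^ 2 ≤ a ^ 2 * ∑ k ∈ FF l x, ‖x k‖ ^ 2 :=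
      mul_le_mul_of_nonneg_right h5 h6
    linarith
  have e5 : (N - 1) / 2 - (1 - a) * (26 / 100 * N) ≤ U.re := by
    have h5 : ∑ k ∈ FF l x, (1 / 2 - (1 - a) * ‖x k‖ ^ 2) ≤ U.re := by
      rw [hU, Complex.re_sum]
      refine Finset.sum_le_sum fun k _ => ?_
      rw [u_re]
      exact h.alpha k
    rw [Finset.sum_sub_distrib, Finset.sum_const, nsmul_eq_mul, cardFF h hF,
      ← Finset.mul_sum] at h5
    have h6 : (1 - a) * ∑ k ∈ FF l x, ‖x k‖ ^ 2 ≤ (1 - a) * (26 / 100 * N) :=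
      mul_le_mul_of_nonneg_left e4 (by linarith)
    linarith
  have e6 : U.re + u0.re ≤ a * N := by
    have h5 : ∑ k, ‖-((a : ℂ) * x k)‖ ≤ a * N := by
      simp only [u_norm (show 0 < a by linarith)]
      rw [← Finset.mul_sum]
      exact mul_le_mul_of_nonneg_left h.hS (by linarith)
    rw [split_sum hF] at h5
    have h6 : U.re ≤ ∑ k ∈ FF l x, ‖-((a : ℂ) * x k)‖ :=
      (Complex.re_le_norm U).trans (norm_sum_le _ _)
    have h7 := Complex.re_le_norm u0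
    linarith
  nlinarith

/-- `U` is close to `(N - 1)/2` -/
lemma U_near (h : NC N a l x) (hF : (FF l x)ᶜ = {i0})
    (h2 : ∑ k ∈ FF l x, ‖-((a : ℂ) * x k) - 1 / 2‖ ≤ 1 / 10 ^ 7 * N) :
    ‖∑ k ∈ FF l x, -((a : ℂ) * x k) - (((N - 1 : ℝ) / 2 : ℝ) : ℂ)‖ ≤ 1 / 10 ^ 7 * N := by
  have e : ∑ k ∈ FF l x, -((a : ℂ) * x k) - (((N - 1 : ℝ) / 2 : ℝ) : ℂ) =
      ∑ k ∈ FF l x, (-((a : ℂ) * x k) - 1 / 2) := by
    rw [Finset.sum_sub_distrib, Finset.sum_const, nsmul_eq_mul]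
    congr 1
    have := cardFF h hF
    have h4 : ((FF l x).card : ℂ) = ((((FF l x).card : ℝ)) : ℂ) := by push_cast; rfl
    rw [h4, this]
    push_cast
    ring
  rw [e]
  exact (norm_sum_le _ _).trans h2

/-- (ii) -/
lemma reS2 (h : NC N a l x) (hF : (FF l x)ᶜ = {i0})
    (h1 : ‖-((a : ℂ) * x i0) - ∑ k ∈ FF l x, -((a : ℂ) * x k) - 1‖ ≤ 1 / 20)
    (h2 : ∑ k ∈ FF l x, ‖-((a : ℂ) * x k) - 1 / 2‖ ≤ 1 / 10 ^ 7 * N)
    (h3 : ∀ k ∈ FF l x, ‖-((a : ℂ) * x k) - 1 / 2‖ ≤ 2) (S1 S2 : ℂ)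
    (hT1 : ∑ k, -(x k) = 2 * S1) (hT2 : ∑ k, x k ^ 2 = S1 ^ 2 + 3 * S2) :
    23 / 100 * (N : ℝ) ≤ S2.re := by
  have ha0 := h.a0
  have ha1 := h.ha1
  have hN := h.Nbig
  have hUn := U_near h hF h2
  set U : ℂ := ∑ k ∈ FF l x, -((a : ℂ) * x k) with hU
  set u0 : ℂ := -((a : ℂ) * x i0) with hu0
  set Q : ℂ := ∑ k ∈ FF l x, (-((a : ℂ) * x k)) ^ 2 with hQ
  have f1 : U + u0 = a * (2 * S1) := by
    rw [← hT1, Finset.mul_sum, split_sum hF, hU, hu0]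
    congr 1
    · exact Finset.sum_congr rfl fun k _ => by ring
    · ring
  have f2 : Q + u0 ^ 2 = a ^ 2 * (S1 ^ 2 + 3 * S2) := by
    rw [← hT2, Finset.mul_sum, split_sum hF, hQ, hu0]
    congr 1
    · exact Finset.sum_congr rfl fun k _ => by ring
    · ring
  have key : 3 * (a : ℂ) ^ 2 * S2 = Q + U + U * (u0 - U - 1) + 3 / 4 * (u0 - U) ^ 2 := by
    linear_combination (-1) * f2 + (1 / 2) * ((U + u0) / 2 + a * S1) * f1
  have g1 : (N - 1) / 4 - 3 / 10 ^ 7 * (N : ℝ) ≤ Q.re := by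
    have h4 : ∀ k ∈ FF l x, 1 / 4 - 3 * ‖-((a : ℂ) * x k) - 1 / 2‖ ≤
        ((-((a : ℂ) * x k)) ^ 2).re := by
      intro k hk
      have h5 := h3 k hk
      set v : ℂ := -((a : ℂ) * x k) with hv
      have h6 : ‖v ^ 2 - 1 / 4‖ ≤ 3 * ‖v - 1 / 2‖ := by
        have e : v ^ 2 - 1 / 4 = (v - 1 / 2) * (v + 1 / 2) := by ring
        have h7 : ‖v + 1 / 2‖ ≤ 3 := by
          have e' : v + 1 / 2 = (v - 1 / 2) + 1 := by ring
          rw [e']
          refine (norm_add_le _ _).trans ?_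
          rw [norm_one]
          linarith
        rw [e, norm_mul, mul_comm]
        exact mul_le_mul_of_nonneg_right h7 (norm_nonneg _)
      have h7 := (abs_le.1 ((Complex.abs_re_le_norm (v ^ 2 - 1 / 4)).trans h6)).1
      have h8 : (v ^ 2 - 1 / 4).re = (v ^ 2).re - 1 / 4 := by
        rw [Complex.sub_re]
        norm_num
      rw [h8] at h7
      linarith
    have h5 := Finset.sum_le_sum h4
    rw [Finset.sum_sub_distrib, ← Finset.mul_sum, Finset.sum_const, nsmul_eq_mul,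
      cardFF h hF, ← Complex.re_sum, ← hQ] at h5
    linarith
  have g2 : (N - 1) / 2 - 1 / 10 ^ 7 * (N : ℝ) ≤ U.re := by
    have := (abs_le.1 ((Complex.abs_re_le_norm _).trans hUn)).1
    rw [Complex.sub_re, Complex.ofReal_re] at this
    linarith
  have g3 : ‖U‖ ≤ (N - 1) / 2 + 1 / 10 ^ 7 * (N : ℝ) := by
    have h4 := norm_sub_norm_le U ((((N : ℝ) - 1) / 2 : ℝ) : ℂ)
    rw [Complex.norm_real, Real.norm_eq_abs, abs_of_nonneg (by linarith)] at h4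
    linarith
  have g4 : -(‖U‖ * (1 / 20)) ≤ (U * (u0 - U - 1)).re := by
    have h4 : ‖U * (u0 - U - 1)‖ ≤ ‖U‖ * (1 / 20) := by
      rw [norm_mul]
      exact mul_le_mul_of_nonneg_left h1 (norm_nonneg _)
    have := (abs_le.1 ((Complex.abs_re_le_norm _).trans h4)).1
    linarith
  have g5 : 0 ≤ (3 / 4 * (u0 - U) ^ 2 : ℂ).re := by
    have h4 := abs_le.1 ((Complex.abs_re_le_norm (u0 - U - 1)).trans h1)
    have h5 := abs_le.1 ((Complex.abs_im_le_norm (u0 - U - 1)).trans h1)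
    rw [Complex.sub_re, Complex.one_re] at h4
    rw [Complex.sub_im, Complex.one_im, sub_zero] at h5
    have e : (3 / 4 * (u0 - U) ^ 2 : ℂ).re =
        3 / 4 * ((u0 - U).re ^ 2 - (u0 - U).im ^ 2) := by
      have e' : (3 / 4 * (u0 - U) ^ 2 : ℂ) = ((3 / 4 : ℝ) : ℂ) * ((u0 - U) * (u0 - U)) := by
        push_cast
        ring
      rw [e', Complex.re_ofReal_mul, Complex.mul_re]
      ring
    rw [e]
    obtain ⟨h4a, h4b⟩ := h4
    obtain ⟨h5a, h5b⟩ := h5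
    nlinarith
  have hre := congrArg Complex.re key
  have e1 : (3 * (a : ℂ) ^ 2 * S2).re = 3 * a ^ 2 * S2.re := by
    have e' : (3 * (a : ℂ) ^ 2 * S2) = ((3 * a ^ 2 : ℝ) : ℂ) * S2 := by
      push_cast
      ring
    rw [e', Complex.re_ofReal_mul]
  rw [e1, Complex.add_re, Complex.add_re, Complex.add_re] at hre
  have hlow : 7 / 10 * (N : ℝ) ≤ 3 * a ^ 2 * S2.re := by
    rw [hre]
    linarith
  by_contra hc
  rw [not_le] at hc
  have ha2 : a ^ 2 ≤ 1 := by nlinarith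
  have ha20 : 0 ≤ a ^ 2 := sq_nonneg a
  have h5 : 3 * a ^ 2 * S2.re ≤ 3 * a ^ 2 * (23 / 100 * N) :=
    mul_le_mul_of_nonneg_left hc.le (by linarith)
  have h6 : 3 * a ^ 2 * (23 / 100 * (N : ℝ)) ≤ 3 * 1 * (23 / 100 * N) := by
    refine mul_le_mul_of_nonneg_right (by linarith) (by linarith)
  linarith

end

/-- (iii) the zeros are not too close to `a` -/
lemma zloc (hL : S_LOCZ) {N : ℕ} {a l : ℝ} {x : Fin N → ℂ} (z w : Fin N → ℂ) (i0 : Fin N)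
    (h : NC N a l x)
    (hw : ∀ y : ℂ, (derivative (Pool.Agent.H565.Pm.P a z)).eval y = (N + 1 : ℂ) * ∏ k, (y - w k))
    (hne : ∀ k, w k ≠ (a : ℂ)) (hx : ∀ k, x k = (w k - (a : ℂ))⁻¹) (hF : (FF l x)ᶜ = {i0})
    (h1 : ‖-((a : ℂ) * x i0) - ∑ k ∈ FF l x, -((a : ℂ) * x k) - 1‖ ≤ 1 / 20)
    (h2 : ∑ k ∈ FF l x, ‖-((a : ℂ) * x k) - 1 / 2‖ ≤ 1 / 10 ^ 7 * N)
    (h3 : ∀ k ∈ FF l x, ‖-((a : ℂ) * x k) - 1 / 2‖ ≤ 2) (hza : ∀ j, z j ≠ (a : ℂ)) (j : Fin N) :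
    (59 / 10) / (N : ℝ) ≤ ‖(a : ℂ) - z j‖ := by
  have ha0 := h.a0
  have ha1 := h.ha1
  have hN := h.Nbig
  have hN0 := h.N0
  have ha : 0 < a := by linarith
  have hac : (a : ℂ) ≠ 0 := by exact_mod_cast ha.ne'
  by_contra hc
  rw [not_le] at hc
  set d : ℝ := ‖(a : ℂ) - z j‖ with hd
  have hd0 : 0 < d := norm_pos_iff.2 (sub_ne_zero.2 (hza j).symm)
  have hdc : (d : ℂ) ≠ 0 := by exact_mod_cast hd0.ne'
  set k1 : ℝ := d / a with hk1
  have hk10 : 0 < k1 := div_pos hd0 ha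
  set ω : ℂ := ((a : ℂ) - z j) / d with hω
  have hωn : ‖ω‖ = 1 := by
    rw [hω, norm_div, Complex.norm_real, Real.norm_eq_abs, abs_of_pos hd0, ← hd,
      div_self hd0.ne']
  set u : Fin N → ℂ := fun k => -((a : ℂ) * x k) with hu
  have huw : ∀ k, u k = (a : ℂ) * ((a : ℂ) - w k)⁻¹ := by
    intro k
    simp only [hu]
    rw [hx k, ← neg_sub, inv_neg]
    ring
  have ht := test_c ha z w k1 hk10.le ω hωn hw hne u huw
  have hz0 : ∏ j', ‖(a : ℂ) * (1 - k1 * ω) - z j'‖ = 0 := by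
    refine Finset.prod_eq_zero (Finset.mem_univ j) ?_
    rw [norm_eq_zero, hk1, hω]
    push_cast
    field_simp
    ring
  rw [hz0, mul_zero] at ht
  have hint0 : ∫ t in (0:ℝ)..k1, ∏ k, (1 - (t : ℂ) * (ω * u k)) = 0 := by
    have h5 : (N + 1 : ℝ) ≠ 0 := by positivity
    have h6 := (mul_eq_zero.1 ht).resolve_left h5
    exact norm_eq_zero.1 h6
  have hsub := intervalIntegral.smul_integral_comp_mul_left (a := 0) (b := 1)
    (fun t : ℝ => ∏ k, (1 - (t : ℂ) * (ω * u k))) k1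
  rw [mul_zero, mul_one, hint0, smul_eq_zero] at hsub
  have hsub' := hsub.resolve_left hk10.ne'
  obtain ⟨M, rfl⟩ : ∃ M, N = M + 1 := ⟨N - 1, by
    have : 0 < N := by exact_mod_cast hN0
    omega⟩
  have hMR : ((M + 1 : ℕ) : ℝ) = M + 1 := by push_cast; rfl
  rw [hMR] at hN hN0 h2 hc
  have hM9 : (10 : ℝ) ^ 9 ≤ M := by
    have : (10 : ℝ) ^ 9 + 1 ≤ 10 ^ 200 := by norm_num
    linarith
  have hmem : ∀ k : Fin M, i0.succAbove k ∈ FF l x := by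
    intro k
    by_contra hk
    have h5 : i0.succAbove k ∈ (FF l x)ᶜ := Finset.mem_compl.2 hk
    rw [hF, Finset.mem_singleton] at h5
    exact Fin.succAbove_ne i0 k h5
  have hsumS : ∀ (G : Fin (M + 1) → ℝ), ∑ k : Fin M, G (i0.succAbove k) = ∑ k ∈ FF l x, G k := by
    intro G
    have h5 := Fin.sum_univ_succAbove G i0
    rw [split_sum hF] at h5
    linarith
  have hUn := U_near h hF (by rw [hMR]; exact h2)
  refine hL M (fun k => u (i0.succAbove k)) (u i0) ((k1 : ℂ) * ω) ?_ ?_ ?_ ?_ ?_ ?_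
  · exact_mod_cast hM9
  · rw [norm_mul, hωn, mul_one, Complex.norm_real, Real.norm_eq_abs, abs_of_pos hk10, hk1,
      div_le_div_iff₀ ha (by linarith)]
    rw [lt_div_iff₀ hN0] at hc
    have h5 : d * M ≤ d * (M + 1) := mul_le_mul_of_nonneg_left (by linarith) hd0.le
    linarith
  · intro k
    exact h3 _ (hmem k)
  · rw [hsumS (fun k => ‖u k - 1 / 2‖)]
    refine le_trans h2 ?_
    linarith
  · have e : u i0 - (M : ℂ) / 2 = (u i0 - (∑ k ∈ FF l x, -((a : ℂ) * x k)) - 1) + 1 +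
        ((∑ k ∈ FF l x, -((a : ℂ) * x k)) - ((((M + 1 : ℕ) : ℝ) - 1) / 2 : ℝ)) := by
      push_cast
      ring
    rw [e]
    refine (norm_add_le _ _).trans ?_
    have h5 : ‖u i0 - (∑ k ∈ FF l x, -((a : ℂ) * x k)) - 1 + 1‖ ≤ 1 / 20 + 1 := by
      refine (norm_add_le _ _).trans ?_
      rw [norm_one]
      linarith
    rw [hMR] at hUn
    have h6 : (10 : ℝ) ^ 9 ≤ M := hM9
    have h7 : ((((M + 1 : ℕ) : ℝ) - 1) / 2 : ℝ) = (((M : ℝ) + 1 - 1) / 2 : ℝ) := by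
      rw [hMR]
    rw [h7]
    linarith
  · rw [← hsub']
    refine intervalIntegral.integral_congr fun s _ => ?_
    rw [Fin.prod_univ_succAbove _ i0, mul_comm]
    push_cast
    congr 1
    · ring
    · refine Finset.prod_congr rfl fun k _ => ?_
      ring

/-- one near point -/
theorem C1F : S_C1F := by
  intro hID hL N a l x z w i0 h hz1 hw hne hx hF h1 h2 h3
  obtain ⟨hza, hT1, hT2⟩ := hID N a z w hw hne
  have ha0 := h.a0
  have ha1 := h.ha1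
  have hN := h.Nbig
  have hN0 := h.N0
  have hv : ∀ k, ((a : ℂ) - w k)⁻¹ = -(x k) := by
    intro k
    rw [hx k, ← inv_neg, neg_sub]
  have hT1' : ∑ k, -(x k) = 2 * ∑ j, ((a : ℂ) - z j)⁻¹ := by
    rw [← hT1]
    exact Finset.sum_congr rfl fun k _ => (hv k).symm
  have hT2' : ∑ k, x k ^ 2 =
      (∑ j, ((a : ℂ) - z j)⁻¹) ^ 2 + 3 * ∑ j, (((a : ℂ) - z j)⁻¹) ^ 2 := by
    rw [← hT2]
    refine Finset.sum_congr rfl fun k _ => ?_
    rw [hv k, neg_sq]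
  have hS2 := reS2 h hF h1 h2 h3 _ _ hT1' hT2'
  have heps := epsN h hF h1 h2 h3
  have hloc := zloc hL z w i0 h hw hne hx hF h1 h2 h3 hza
  have he1 := h.eps1
  refine finV (N := N) (a := a) (fun j => ((a : ℂ) - z j)⁻¹) (by linarith) ?_ ha1 heps ?_ ?_ ?_ hS2
  · have : (1 : ℝ) / 10 ^ 100 ≤ 1 / 10 ^ 6 := by norm_num
    linarith
  · intro j
    have hj : (a : ℂ) - z j ≠ 0 := sub_ne_zero.2 (hza j).symm
    set ζ : ℂ := ((a : ℂ) - z j)⁻¹ with hζ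
    have e1 : 1 + (a : ℂ) * (-ζ) = -(ζ * z j) := by
      rw [hζ]
      field_simp
      ring
    have e2 : ‖1 + (a : ℂ) * (-ζ)‖ ^ 2 ≤ ‖ζ‖ ^ 2 := by
      rw [e1, norm_neg, norm_mul]
      refine pow_le_pow_left₀ (by positivity) ?_ 2
      exact mul_le_of_le_one_right (norm_nonneg _) (hz1 j)
    rw [sq_one_add, norm_neg, Complex.neg_re] at e2
    linarith
  · intro j
    rw [norm_inv]
    have h4 := hloc j
    have h5 : 0 < (59 / 10) / (N : ℝ) := by positivity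
    have h6 := inv_anti₀ h5 h4
    rwa [inv_div] at h6
  · have h4 := congrArg Complex.re hT1'
    have h5 : (∑ k, -(x k)).re ≤ N := by
      refine le_trans ((Complex.re_le_norm _).trans (norm_sum_le _ _)) ?_
      simp only [norm_neg]
      exact h.hS
    have h6 : (2 * ∑ j, ((a : ℂ) - z j)⁻¹).re = 2 * (∑ j, ((a : ℂ) - z j)⁻¹).re := by
      rw [Complex.mul_re]
      simp
    rw [h6] at h4
    linarith

end Pool.Agent.H729.MR
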